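import Pool.Agent.Lib.MP_bf61d2_nt.Artin.L.StmtsL63
import Pool.Agent.Lib.MP_bf61d2_nt.Artin.R.LOGR84

set_option autoImplicit false

/-!
LOCAL (MP_bf61d2_nt), module LELOG: the logarithmic derivative of the twisted L-function of `E`.
-/

namespace Pool.Agent.Lib.MP_bf61d2_nt.Artin.Ray

open NumberField IsDedekindDomain Filter Topology

universe u

namespace LELOG36

variable {K : Type u} [Field K] [NumberField K]

lemma xi_anti (W : WeierstrassCurve K) (v : HeightOneSpectrum (𝓞 K)) {σ τ : ℝ} (h : σ ≤ τ) :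
    xi W v τ ≤ xi W v σ := by
  have h1 : (1 : ℝ) ≤ nm v := by exact_mod_cast (one_lt_nm v).le
  have h0 : (0 : ℝ) ≤ (nm v : ℝ) ^ (-τ) := Real.rpow_nonneg (nm_pos v).le _
  have h2 : (nm v : ℝ) ^ (-τ) ≤ (nm v : ℝ) ^ (-σ) :=
    Real.rpow_le_rpow_of_exponent_le h1 (by linarith)
  unfold xi
  gcongr

/-- The numerator of the local logarithmic derivative. -/
noncomputable def nw (W : WeierstrassCurve K) (v : HeightOneSpectrum (𝓞 K)) (ω s : ℂ) : ℂ :=
  tr W v * (ω * (nm v : ℂ) ^ (-s)) - 2 * (bb W v * (ω * (nm v : ℂ) ^ (-s)) ^ 2)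

lemma hasDerivAt_zw (W : WeierstrassCurve K) (v : HeightOneSpectrum (𝓞 K)) (ω s : ℂ) :
    HasDerivAt (LTX84.zw W v ω) (-((Real.log (nm v) : ℝ) : ℂ) * nw W v ω s) s := by
  have h0 : (nm v : ℂ) ≠ 0 := by
    have := nm_pos v
    exact_mod_cast this.ne'
  have h1 : HasDerivAt (fun s : ℂ => (nm v : ℂ) ^ (-s))
      ((nm v : ℂ) ^ (-s) * Complex.log (nm v : ℂ) * (-1)) s :=
    (hasDerivAt_neg s).const_cpow (Or.inl h0)
  have h2 := h1.const_mul ω
  have h3 := (h2.const_mul (tr W v : ℂ)).sub ((h2.pow 2).const_mul (bb W v : ℂ))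
  have e : LTX84.zw W v ω = fun s => (tr W v : ℂ) * (ω * (nm v : ℂ) ^ (-s)) -
      (bb W v : ℂ) * (ω * (nm v : ℂ) ^ (-s)) ^ 2 := rfl
  rw [e]
  refine h3.congr_deriv ?_
  rw [nw, ← Complex.natCast_log]
  push_cast
  ring

lemma norm_zw_lt (W : WeierstrassCurve K) (v : HeightOneSpectrum (𝓞 K)) {ω : ℂ} (hω : ‖ω‖ ≤ 1)
    {s : ℂ} (hs : 3 / 2 ≤ s.re) : ‖LTX84.zw W v ω s‖ ≤ 24 / 25 :=
  (LTX84.norm_zw_le W v hω s).trans (xi_le W v hs)

lemma slit (W : WeierstrassCurve K) (v : HeightOneSpectrum (𝓞 K)) {ω : ℂ} (hω : ‖ω‖ ≤ 1)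
    {s : ℂ} (hs : 3 / 2 ≤ s.re) : 1 - LTX84.zw W v ω s ∈ Complex.slitPlane := by
  have h1 := norm_zw_lt W v hω hs
  rw [sub_eq_add_neg]
  exact Complex.mem_slitPlane_of_norm_lt_one (by rw [norm_neg]; linarith)

lemma hasDerivAt_lam (W : WeierstrassCurve K) (v : HeightOneSpectrum (𝓞 K)) {ω : ℂ}
    (hω : ‖ω‖ ≤ 1) {s : ℂ} (hs : 3 / 2 ≤ s.re) :
    HasDerivAt (fun s => -Complex.log (1 - LTX84.zw W v ω s))
      (-(((Real.log (nm v) : ℝ) : ℂ) * (nw W v ω s / (1 - LTX84.zw W v ω s)))) s := by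
  have h1 := ((hasDerivAt_zw W v ω s).const_sub 1).clog (slit W v hω hs)
  refine h1.neg.congr_deriv ?_
  ring

/-- The local majorant of the remainder. -/
noncomputable def bd (v : HeightOneSpectrum (𝓞 K)) : ℝ := 1000 * (pr v : ℝ) ^ (-(3 / 2) : ℝ)

lemma summable_bd : Summable fun v : HeightOneSpectrum (𝓞 K) => bd v := by
  have h1 : Summable fun n : ℕ => 1000 * (n : ℝ) ^ (-(3 / 2) : ℝ) :=
    (Real.summable_nat_rpow.mpr (by norm_num)).mul_left _
  exact summable_pr (h := fun n : ℕ => 1000 * (n : ℝ) ^ (-(3 / 2) : ℝ))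
    (fun n => by positivity) h1

lemma inv_one_sub_le (W : WeierstrassCurve K) (v : HeightOneSpectrum (𝓞 K)) {ω : ℂ}
    (hω : ‖ω‖ ≤ 1) {s : ℂ} (hs : 3 / 2 ≤ s.re) (z : ℂ) :
    ‖z / (1 - LTX84.zw W v ω s)‖ ≤ 25 * ‖z‖ := by
  have h1 := norm_zw_lt W v hω hs
  have h2 : 1 / 25 ≤ ‖1 - LTX84.zw W v ω s‖ := by
    have := norm_sub_norm_le (1 : ℂ) (LTX84.zw W v ω s)
    rw [norm_one] at this
    linarith
  rw [norm_div, div_le_iff₀ (by linarith)]
  nlinarith [norm_nonneg z]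

/-- The two pieces of the local variable. -/
lemma pieces (W : WeierstrassCurve K) (v : HeightOneSpectrum (𝓞 K)) {ω : ℂ}
    (hω : ‖ω‖ ≤ 1) (s : ℂ) :
    ‖(tr W v : ℂ) * (ω * (nm v : ℂ) ^ (-s))‖ ≤ |(tr W v : ℝ)| * (nm v : ℝ) ^ (-s.re) ∧
    ‖(bb W v : ℂ) * (ω * (nm v : ℂ) ^ (-s)) ^ 2‖ ≤ wt v s.re ^ 2 := by
  have h1 : ‖ω * (nm v : ℂ) ^ (-s)‖ ≤ (nm v : ℝ) ^ (-s.re) := by
    rw [norm_mul, norm_cpow]
    exact mul_le_of_le_one_left (Real.rpow_nonneg (nm_pos v).le _) hω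
  constructor
  · rw [norm_mul, Complex.norm_intCast]
    gcongr
  · refine le_trans ?_ (bb_term_le W v s.re)
    rw [norm_mul, norm_pow, Complex.norm_intCast]
    gcongr

lemma log_le_four (v : HeightOneSpectrum (𝓞 K)) :
    Real.log (nm v) ≤ 4 * (nm v : ℝ) ^ (1 / 4 : ℝ) := by
  have := Real.log_le_rpow_div (nm_pos v).le (ε := 1 / 4) (by norm_num)
  linarith

lemma log_le_two (v : HeightOneSpectrum (𝓞 K)) :
    Real.log (nm v) ≤ 2 * (nm v : ℝ) ^ (1 / 2 : ℝ) := by
  have := Real.log_le_rpow_div (nm_pos v).le (ε := 1 / 2) (by norm_num)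
  linarith

/-- The local estimate. -/
lemma local_le (W : WeierstrassCurve K) (v : HeightOneSpectrum (𝓞 K)) {ω : ℂ}
    (hω : ‖ω‖ ≤ 1) {s : ℂ} (hs : 3 / 2 ≤ s.re) :
    Real.log (nm v) * ‖nw W v ω s / (1 - LTX84.zw W v ω s) -
      cc W v * (ω * (nm v : ℂ) ^ (-(s - 1 / 2)))‖ ≤ bd v := by
  have hp0 : (0 : ℝ) < pr v := by exact_mod_cast (pr_prime v).pos
  have hq := nm_pos v
  have hl := (log_nm_pos v).le
  obtain ⟨hA, hB⟩ := pieces W v hω s
  set a : ℂ := (tr W v : ℂ) * (ω * (nm v : ℂ) ^ (-s)) with ha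
  set b : ℂ := (bb W v : ℂ) * (ω * (nm v : ℂ) ^ (-s)) ^ 2 with hb
  have hzw : LTX84.zw W v ω s = a - b := rfl
  have hnw : nw W v ω s = a - 2 * b := rfl
  have hw := wt_pos v s.re
  have hw1 := wt_le v hs
  have hnn : ‖nw W v ω s‖ ≤ ‖a‖ + 2 * ‖b‖ := by
    rw [hnw]
    refine (norm_sub_le _ _).trans (le_of_eq ?_)
    rw [norm_mul]
    norm_num
  by_cases hp : pr v = 2
  · have e : (cc W v : ℂ) * (ω * (nm v : ℂ) ^ (-(s - 1 / 2))) = 0 := by
      rw [cc, if_neg (by simp [hp])]; simp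
    rw [e, sub_zero]
    have h2 : (2 : ℝ) ≤ nm v := by exact_mod_cast one_lt_nm v
    have h1 : (1 : ℝ) ≤ nm v := by linarith
    obtain ⟨-, ha', -, -⟩ := lp_eq W v
    have ha'' : |(tr W v : ℝ)| ≤ nm v := by exact_mod_cast ha'
    set y : ℝ := (nm v : ℝ) ^ (1 / 2 : ℝ) with hy
    have hy1 : 1 ≤ y := Real.one_le_rpow h1 (by norm_num)
    have hyy : y * y = nm v := by
      rw [hy, ← Real.rpow_add hq]
      norm_num
    have h3 : ‖a‖ ≤ 1 / y := by
      refine hA.trans ?_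
      calc |(tr W v : ℝ)| * (nm v : ℝ) ^ (-s.re) ≤ nm v * (nm v : ℝ) ^ (-(3 / 2) : ℝ) := by
            gcongr
        _ = (nm v : ℝ) ^ (-(1 / 2) : ℝ) := by
            nth_rewrite 1 [← Real.rpow_one (nm v : ℝ)]
            rw [← Real.rpow_add hq]
            norm_num
        _ = 1 / y := by rw [Real.rpow_neg hq.le, ← hy]; ring
    have h4 : ‖b‖ ≤ 1 / y := by
      refine hB.trans ?_
      calc wt v s.re ^ 2 ≤ (1 / nm v) ^ 2 := pow_le_pow_left₀ hw.le hw1 2
        _ ≤ 1 / y := by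
            rw [← hyy, div_pow, one_pow]
            apply one_div_le_one_div_of_le (by linarith)
            nlinarith [mul_pos (lt_of_lt_of_le one_pos hy1) (lt_of_lt_of_le one_pos hy1)]
    have h5 := inv_one_sub_le W v hω hs (nw W v ω s)
    have h6 : ‖nw W v ω s / (1 - LTX84.zw W v ω s)‖ ≤ 75 * (1 / y) := by linarith
    have h7 := log_le_two v
    have hbd : (300 : ℝ) ≤ bd v := by
      rw [bd, hp]
      have h8 : (0.3 : ℝ) ≤ ((2 : ℕ) : ℝ) ^ (-(3 / 2) : ℝ) := by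
        have e3 : ((2 : ℕ) : ℝ) ^ (-(3 / 2) : ℝ) = (2 * Real.sqrt 2)⁻¹ := by
          push_cast
          rw [Real.rpow_neg (by norm_num), Real.sqrt_eq_rpow]
          congr 1
          rw [show (3 / 2 : ℝ) = 1 + 1 / 2 by norm_num, Real.rpow_add (by norm_num),
            Real.rpow_one]
        rw [e3, le_inv_comm₀ (by norm_num) (by positivity)]
        have h9 : Real.sqrt 2 ≤ 1.5 := by
          rw [Real.sqrt_le_left (by norm_num)]
          norm_num
        linarith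
      linarith
    refine le_trans ?_ hbd
    calc Real.log (nm v) * ‖nw W v ω s / (1 - LTX84.zw W v ω s)‖
        ≤ (2 * y) * (75 * (1 / y)) := by gcongr
      _ = 150 := by field_simp; norm_num
      _ ≤ 300 := by norm_num
  · obtain ⟨hxi, hw3⟩ := xi_le_of_odd W v hp hs
    have hA2 := tr_term_le_of_odd W v hp s.re
    have hz : ‖LTX84.zw W v ω s‖ ≤ 3 * wt v s.re := (LTX84.norm_zw_le W v hω s).trans hxi
    have ha2 : ‖a‖ ≤ 2 * wt v s.re := hA.trans hA2
    have h1 : (1 : ℝ) ≤ nm v := by exact_mod_cast (one_lt_nm v).le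
    by_cases hd : nm v = pr v
    · have e1 : (cc W v : ℂ) * (nm v : ℂ) ^ (-(s - 1 / 2)) = tr W v * (nm v : ℂ) ^ (-s) := by
        rw [sqrt_cpow v s, cc, if_pos ⟨hp, hd⟩]
        push_cast
        ring
      have e2 : (cc W v : ℂ) * (ω * (nm v : ℂ) ^ (-(s - 1 / 2))) = a := by
        calc (cc W v : ℂ) * (ω * (nm v : ℂ) ^ (-(s - 1 / 2))) =
            ω * ((cc W v : ℂ) * (nm v : ℂ) ^ (-(s - 1 / 2))) := by ring
          _ = ω * (tr W v * (nm v : ℂ) ^ (-s)) := by rw [e1]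
          _ = _ := by rw [ha]; ring
      have hne : 1 - LTX84.zw W v ω s ≠ 0 := Complex.slitPlane_ne_zero (slit W v hω hs)
      have e3 : nw W v ω s / (1 - LTX84.zw W v ω s) -
          cc W v * (ω * (nm v : ℂ) ^ (-(s - 1 / 2))) =
          (a * LTX84.zw W v ω s - 2 * b) / (1 - LTX84.zw W v ω s) := by
        rw [e2, div_sub' hne, hnw]
        congr 1
        ring
      rw [e3]
      have h5 := inv_one_sub_le W v hω hs (a * LTX84.zw W v ω s - 2 * b)
      have h6 : ‖a * LTX84.zw W v ω s - 2 * b‖ ≤ 8 * wt v s.re ^ 2 := by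
        refine (norm_sub_le _ _).trans ?_
        rw [norm_mul, norm_mul 2 b]
        have h7 : ‖a‖ * ‖LTX84.zw W v ω s‖ ≤ (2 * wt v s.re) * (3 * wt v s.re) :=
          mul_le_mul ha2 hz (norm_nonneg _) (by positivity)
        have h8 : ‖(2 : ℂ)‖ = 2 := by norm_num
        rw [h8]
        nlinarith
      have h7 : wt v s.re ^ 2 ≤ (1 / nm v) ^ 2 := pow_le_pow_left₀ hw.le hw1 2
      have h8 := log_le_four v
      calc _ ≤ (4 * (nm v : ℝ) ^ (1 / 4 : ℝ)) * (25 * (8 * (1 / nm v) ^ 2)) :=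
            mul_le_mul h8 (by linarith) (norm_nonneg _) (by positivity)
        _ = 800 * (nm v : ℝ) ^ (-(7 / 4) : ℝ) := by
            have e4 : (1 / (nm v : ℝ)) ^ 2 = (nm v : ℝ) ^ (-2 : ℝ) := by
              rw [Real.rpow_neg hq.le, one_div, inv_pow]
              norm_num
            rw [e4]
            have e5 : (nm v : ℝ) ^ (-(7 / 4) : ℝ) =
                (nm v : ℝ) ^ (1 / 4 : ℝ) * (nm v : ℝ) ^ (-2 : ℝ) := by
              rw [← Real.rpow_add hq]
              norm_num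
            rw [e5]
            ring
        _ ≤ 800 * (nm v : ℝ) ^ (-(3 / 2) : ℝ) :=
            mul_le_mul_of_nonneg_left
              (Real.rpow_le_rpow_of_exponent_le h1 (by norm_num)) (by norm_num)
        _ ≤ bd v := by
            rw [bd, hd]
            have : (0 : ℝ) ≤ (pr v : ℝ) ^ (-(3 / 2) : ℝ) := by positivity
            linarith
    · have e : (cc W v : ℂ) * (ω * (nm v : ℂ) ^ (-(s - 1 / 2))) = 0 := by
        rw [cc, if_neg (by tauto)]; simp
      rw [e, sub_zero]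
      have h3 : ((pr v : ℝ)) ^ 2 ≤ nm v := by exact_mod_cast sq_pr_le_nm v hd
      have h5 := inv_one_sub_le W v hω hs (nw W v ω s)
      have h6 : ‖nw W v ω s‖ ≤ 3 * wt v s.re := by nlinarith
      have h8 := log_le_four v
      calc _ ≤ (4 * (nm v : ℝ) ^ (1 / 4 : ℝ)) * (25 * (3 * (1 / nm v))) :=
            mul_le_mul h8 (by linarith) (norm_nonneg _) (by positivity)
        _ = 300 * (nm v : ℝ) ^ (-(3 / 4) : ℝ) := by
            have e5 : (nm v : ℝ) ^ (-(3 / 4) : ℝ) =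
                (nm v : ℝ) ^ (1 / 4 : ℝ) * (nm v : ℝ) ^ (-1 : ℝ) := by
              rw [← Real.rpow_add hq]
              norm_num
            rw [e5, Real.rpow_neg_one, one_div]
            ring
        _ ≤ 300 * ((pr v : ℝ) ^ 2) ^ (-(3 / 4) : ℝ) :=
            mul_le_mul_of_nonneg_left
              (Real.rpow_le_rpow_of_nonpos (by positivity) h3 (by norm_num)) (by norm_num)
        _ = 300 * (pr v : ℝ) ^ (-(3 / 2) : ℝ) := by
            rw [← Real.rpow_natCast (pr v : ℝ) 2, ← Real.rpow_mul hp0.le]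
            norm_num
        _ ≤ bd v := by
            rw [bd]
            have : (0 : ℝ) ≤ (pr v : ℝ) ^ (-(3 / 2) : ℝ) := by positivity
            linarith

end LELOG36

open LELOG36 in
/-- LELOG: the logarithmic derivative of the twisted L-function of `E`. -/
theorem stLELOG (K : Type u) [Field K] [NumberField K] : StLELOG K := by
  refine ⟨∑' v : HeightOneSpectrum (𝓞 K), bd v, tsum_nonneg fun v => by rw [bd]; positivity,
    fun E f hf δ t hδ => ?_⟩
  set s : ℂ := ((3 / 2 + δ : ℝ) : ℂ) + t * Complex.I with hs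
  have hre : s.re = 3 / 2 + δ := by rw [hs]; simp
  have h1 : 3 / 2 < s.re := by rw [hre]; linarith
  set F : HeightOneSpectrum (𝓞 K) → ℂ → ℂ :=
    fun v s => -Complex.log (1 - LTX84.zw E v (f v) s) with hF
  -- the open half plane
  set σ₀ : ℝ := 3 / 2 + δ / 2 with hσ₀
  set U : Set ℂ := {s : ℂ | σ₀ < s.re} with hU
  have hUo : IsOpen U := isOpen_lt continuous_const Complex.continuous_re
  have hsU : s ∈ U := by
    change σ₀ < s.re
    rw [hre, hσ₀]
    linarith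
  have hUre : ∀ w ∈ U, 3 / 2 ≤ w.re := fun w hw => by
    have : σ₀ < w.re := hw
    linarith
  have hu : Summable fun v : HeightOneSpectrum (𝓞 K) => 14 * xi E v σ₀ :=
    (summable_xi E (by rw [hσ₀]; linarith)).mul_left 14
  have hFd : ∀ v, DifferentiableOn ℂ (F v) U := fun v w hw =>
    (hasDerivAt_lam E v (hf v) (hUre w hw)).differentiableAt.differentiableWithinAt
  have hFle : ∀ v w, w ∈ U → ‖F v w‖ ≤ 14 * xi E v σ₀ := by
    intro v w hw
    refine (LTX84.norm_lam_le E v (hf v) (hUre w hw)).trans ?_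
    refine mul_le_mul_of_nonneg_left (xi_anti E v ?_) (by norm_num)
    exact (show σ₀ < w.re from hw).le
  have hLd : DifferentiableAt ℂ (fun w => ∑' v, F v w) s :=
    (Complex.differentiableOn_tsum_of_summable_norm hu hFd hUo hFle).differentiableAt
      (hUo.mem_nhds hsU)
  have hder := Complex.hasSum_deriv_of_summable_norm hu hFd hUo hFle hsU
  have heq : LE E f =ᶠ[𝓝 s] fun w => Complex.exp (∑' v, F v w) := by
    filter_upwards [hUo.mem_nhds hsU] with w hw
    exact (LOGR84.hasProd E hf (s := w) (by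
      have : σ₀ < w.re := hw
      linarith)).tprod_eq
  have hexp : HasDerivAt (fun w => Complex.exp (∑' v, F v w))
      (Complex.exp (∑' v, F v s) * deriv (fun w => ∑' v, F v w) s) s :=
    hLd.hasDerivAt.cexp
  have hLE : HasDerivAt (LE E f)
      (Complex.exp (∑' v, F v s) * deriv (fun w => ∑' v, F v w) s) s :=
    hexp.congr_of_eventuallyEq heq
  have hval : LE E f s = Complex.exp (∑' v, F v s) := heq.self_of_nhds
  have hld : logDeriv (LE E f) s = deriv (fun w => ∑' v, F v w) s := by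
    rw [logDeriv_apply, hLE.deriv, hval]
    exact mul_div_cancel_left₀ _ (Complex.exp_ne_zero _)
  refine ⟨by rw [hval]; exact Complex.exp_ne_zero _, hLE.differentiableAt, ?_⟩
  rw [hld]
  -- the sum of the derivatives
  have hder2 : HasSum (fun v => -(((Real.log (nm v) : ℝ) : ℂ) *
      (nw E v (f v) s / (1 - LTX84.zw E v (f v) s)))) (deriv (fun w => ∑' v, F v w) s) := by
    refine hder.congr_fun ?_ |> fun h => h
    intro v
    exact ((hasDerivAt_lam E v (hf v) h1.le).deriv).symm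
  have hterm : ∀ v : HeightOneSpectrum (𝓞 K),
      (wl δ v : ℂ) * ((cc E v : ℂ) * (f v * ph t (nm v))) =
        ((Real.log (nm v) : ℝ) : ℂ) * (cc E v * (f v * (nm v : ℂ) ^ (-(s - 1 / 2)))) := by
    intro v
    rw [hs, cpow_eq_ph, wl]
    push_cast
    ring
  have hs2 : Summable fun v : HeightOneSpectrum (𝓞 K) =>
      (wl δ v : ℂ) * ((cc E v : ℂ) * (f v * ph t (nm v))) := by
    refine Summable.of_norm_bounded ((summable_wl (K := K) hδ).mul_left 2) fun v => ?_
    rw [norm_mul, norm_mul, norm_mul, norm_ph, mul_one, Complex.norm_real, Complex.norm_real,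
      Real.norm_eq_abs, Real.norm_eq_abs, abs_of_nonneg (wl_nonneg _ v)]
    have h3 : |cc E v| * ‖f v‖ ≤ 2 * 1 :=
      mul_le_mul (abs_cc_le E v) (hf v) (norm_nonneg _) (by norm_num)
    have := wl_nonneg δ v
    nlinarith
  rw [CRL, WL, ← hder2.tsum_eq, ← hder2.summable.tsum_add hs2]
  refine tsum_of_norm_bounded summable_bd.hasSum fun v => ?_
  rw [hterm v]
  have e : -(((Real.log (nm v) : ℝ) : ℂ) * (nw E v (f v) s / (1 - LTX84.zw E v (f v) s))) +
      ((Real.log (nm v) : ℝ) : ℂ) * (cc E v * (f v * (nm v : ℂ) ^ (-(s - 1 / 2)))) =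
      -(((Real.log (nm v) : ℝ) : ℂ) * (nw E v (f v) s / (1 - LTX84.zw E v (f v) s) -
        cc E v * (f v * (nm v : ℂ) ^ (-(s - 1 / 2))))) := by ring
  rw [e, norm_neg, norm_mul, Complex.norm_real, Real.norm_eq_abs,
    abs_of_nonneg (log_nm_pos v).le]
  exact local_le E v (hf v) h1.le

end Pool.Agent.Lib.MP_bf61d2_nt.Artin.Ray
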